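import Pool.Agent.N623.CS.Stm

/-!
# Project CS (helper623), part BAIRE2
-/

set_option autoImplicit false

namespace Pool.Agent.N692.CS

open Set Filter Topology
open Pool.Agent.N623.CS

/-- the sequences -/
abbrev ZZ := ℕ → ℤ

theorem open_cyl {U : Set ZZ} (hU : IsOpen U) {t : ZZ} (ht : t ∈ U) :
    ∃ M : ℕ, ∀ b : ZZ, (∀ j, j < M → b j = t j) → b ∈ U := by
  rw [isOpen_pi_iff] at hU
  obtain ⟨I, u, h1, h2⟩ := hU t ht
  refine ⟨I.sup id + 1, fun b hb => h2 ?_⟩
  intro i hi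
  have h3 : i ≤ I.sup id := Finset.le_sup (f := id) hi
  rw [hb i (by omega)]
  exact (h1 i hi).2

theorem isOpen_cyl (t : ZZ) (M : ℕ) : IsOpen {b : ZZ | ∀ j, j < M → b j = t j} := by
  have h : {b : ZZ | ∀ j, j < M → b j = t j} = ⋂ j ∈ Finset.range M, {b : ZZ | b j = t j} := by
    ext b
    simp
  rw [h]
  refine isOpen_biInter_finset fun j _ => ?_
  have h1 : Continuous fun b : ZZ => b j := continuous_apply j
  exact h1.isOpen_preimage {t j} (isOpen_discrete _)

theorem residual_add (g : ZZ) {p : ZZ → Prop} (h : ∀ᶠ b in residual ZZ, p b) :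
    ∀ᶠ b in residual ZZ, p (b + g) := by
  obtain ⟨t, ht, hG, hD⟩ := mem_residual.1 h
  refine mem_residual.2 ⟨(fun b => b + g) ⁻¹' t, fun b hb => ht hb, ?_, ?_⟩
  · exact hG.preimage (continuous_id.add continuous_const)
  · exact hD.preimage (Homeomorph.addRight g).isOpenMap

theorem exists_of {U : Set ZZ} (hU : IsOpen U) (hn : U.Nonempty) {p : ZZ → Prop}
    (h : ∀ᶠ b in residual ZZ, p b) : ∃ b ∈ U, p b := by
  obtain ⟨b, hb1, hb2⟩ := (dense_of_mem_residual h).inter_open_nonempty U hU hn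
  exact ⟨b, hb1, hb2⟩

theorem zero_one {m : ℕ} {c : ZZ} (φ : ZZ → ℕ → Bool)
    (hper : ∀ (δ : ℕ → ℤ) (M : ℕ), ∃ γ : ℕ → ℤ,
      (∀ j, j < m → γ j = 0) ∧ (∀ j, m ≤ j → j < M → γ j = δ j) ∧
      ∀ᶠ b in residual (ℕ → ℤ), (∀ j, j < m → b j = c j) → φ b = φ (b + γ))
    (i : ℕ) (Q : Set ZZ) (hQ : ∀ b, b ∈ Q ↔ φ b i = true) (hm : MeasurableSet Q) :
    ∃ y : Bool, ∀ᶠ b in residual ZZ, (∀ j, j < m → b j = c j) → φ b i = y := by
  obtain ⟨U, hU, hQU⟩ := hm.residualEq_isOpen
  obtain ⟨U', hU', hQU'⟩ := hm.compl.residualEq_isOpen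
  have hW := isOpen_cyl c m
  by_cases h1 : (U ∩ {b : ZZ | ∀ j, j < m → b j = c j}).Nonempty
  · by_cases h2 : (U' ∩ {b : ZZ | ∀ j, j < m → b j = c j}).Nonempty
    · exfalso
      obtain ⟨t2, ht2, ht2'⟩ := h1
      obtain ⟨t1, ht1, ht1'⟩ := h2
      obtain ⟨M2, hM2⟩ := open_cyl hU ht2
      obtain ⟨M1, hM1⟩ := open_cyl hU' ht1
      obtain ⟨γ, hγ0, hγ1, hγ⟩ := hper (fun j => t2 j - t1 j) (max (max M1 M2) m)
      have hγ2 : ∀ j, j < max (max M1 M2) m → γ j = t2 j - t1 j := by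
        intro j hj
        rcases lt_or_ge j m with h | h
        · rw [hγ0 j h, ht2' j h, ht1' j h, sub_self]
        · exact hγ1 j h hj
      have hE2 := residual_add γ hQU
      obtain ⟨b, hb, hb1, hb2, hb3⟩ := exists_of (isOpen_cyl t1 (max (max M1 M2) m))
        ⟨t1, fun _ _ => rfl⟩ (hQU'.and (hE2.and hγ))
      have a1 : b ∈ U' := hM1 b fun j hj => hb j (by omega)
      have a2 : b + γ ∈ U := by
        apply hM2
        intro j hj
        have hj' : j < max (max M1 M2) m := by omega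
        rw [Pi.add_apply, hb j hj', hγ2 j hj']
        ring
      have a3 : ∀ j, j < m → b j = c j := by
        intro j hj
        rw [hb j (by omega)]
        exact ht1' j hj
      have a4 : b ∈ Qᶜ := by
        have : (Qᶜ : Set ZZ) b = U' b := hb1
        exact this.mpr a1
      have a5 : b + γ ∈ Q := by
        have : (Q : Set ZZ) (b + γ) = U (b + γ) := hb2
        exact this.mpr a2
      have a6 := hb3 a3
      apply a4
      rw [hQ] at a5 ⊢
      rw [a6]
      exact a5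
    · refine ⟨true, ?_⟩
      filter_upwards [hQU'] with b hb hbW
      have : (Qᶜ : Set ZZ) b = U' b := hb
      have h3 : b ∉ Qᶜ := fun h => h2 ⟨b, this.mp h, hbW⟩
      rw [mem_compl_iff, not_not] at h3
      exact (hQ b).1 h3
  · refine ⟨false, ?_⟩
    filter_upwards [hQU] with b hb hbW
    have : (Q : Set ZZ) b = U b := hb
    have h3 : b ∉ Q := fun h => h1 ⟨b, this.mp h, hbW⟩
    rw [hQ, Bool.not_eq_true] at h3
    exact h3

theorem zero_often : ∀ᶠ b in residual ZZ, ∀ N : ℕ, ∃ k, N ≤ k ∧ b k = 0 := by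
  rw [eventually_countable_forall]
  intro N
  refine residual_of_dense_open ?_ ?_
  · have h : {b : ZZ | ∃ k, N ≤ k ∧ b k = 0} = ⋃ k ∈ {k | N ≤ k}, {b : ZZ | b k = 0} := by
      ext b
      simp
    show IsOpen {b : ZZ | ∃ k, N ≤ k ∧ b k = 0}
    rw [h]
    refine isOpen_biUnion fun k _ => ?_
    have h1 : Continuous fun b : ZZ => b k := continuous_apply k
    exact h1.isOpen_preimage {0} (isOpen_discrete _)
  · rw [dense_iff_inter_open]
    rintro U hU ⟨t, ht⟩
    obtain ⟨M, hM⟩ := open_cyl hU ht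
    refine ⟨fun j => if j < M then t j else 0, hM _ fun j hj => by simp [hj], M + N, by omega, ?_⟩
    simp

/-- BAIRE2. -/
theorem t_baire2 : S_BAIRE2 := by
  intro φ hφ m c hper
  have hall : ∀ i, ∃ y : Bool, ∀ᶠ b in residual ZZ, (∀ j, j < m → b j = c j) → φ b i = y := by
    intro i
    refine zero_one φ hper i {b | φ b i = true} (fun b => Iff.rfl) ?_
    have h1 : Measurable fun b => φ b i := (measurable_pi_apply i).comp hφ
    exact h1 (measurableSet_singleton true)
  choose y hy using hall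
  have hres : ∀ᶠ b in residual ZZ, (∀ j, j < m → b j = c j) → φ b = y := by
    have h1 : ∀ᶠ b in residual ZZ, ∀ i, (∀ j, j < m → b j = c j) → φ b i = y i :=
      eventually_countable_forall.2 hy
    filter_upwards [h1] with b hb hbW
    funext i
    exact hb i hbW
  obtain ⟨κ, hκ⟩ : ∃ κ : ZZ, κ = fun k => if m ≤ k then (k : ℤ) else 0 := ⟨_, rfl⟩
  obtain ⟨b, hbW, hb1, hb2, hb3⟩ := exists_of (isOpen_cyl c m) ⟨c, fun _ _ => rfl⟩
    (hres.and ((residual_add κ hres).and zero_often))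
  refine ⟨b, b + κ, ?_, ?_⟩
  · rw [hb1 hbW, hb2]
    intro j hj
    rw [Pi.add_apply, hbW j hj, hκ]
    simp [not_le.2 hj]
  · rintro ⟨N, hN⟩
    obtain ⟨k, hk1, hk2⟩ := hb3 (max m (N + 1))
    have h1 := hN k
    have hmk : m ≤ k := le_trans (le_max_left _ _) hk1
    have hNk : N + 1 ≤ k := le_trans (le_max_right _ _) hk1
    have e1 : clamp k (b k) = 0 := by
      rw [hk2]
      unfold clamp
      omega
    have e2 : clamp k ((b + κ) k) = k := by
      rw [Pi.add_apply, hk2, hκ]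
      simp only [hmk, if_true, zero_add]
      unfold clamp
      omega
    rw [e1, e2, zero_sub, abs_neg, Nat.abs_cast] at h1
    omega

end Pool.Agent.N692.CS
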